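import Mathlib
import Pool.Agent.H328R3.UTD

set_option autoImplicit false

/-!
# Graphs whose upper total domination number is one less than twice the upper domination number
-/

namespace Pool.Agent.Y414.UT

open Pool.Agent.H328R3.UTD

variable {V : Type}

/-- The vertices of `D` and the partners `m w` of the vertices `w ≠ d` of `D`. -/
def InS (D : Finset V) (d : V) (m : V → V) (u : V) : Prop :=
  u ∈ D ∨ ∃ w ∈ D, w ≠ d ∧ u = m w

/-- `u` is a neighbour of `v`, and the only one with the property `T`. -/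
def Only (G : SimpleGraph V) (T : V → Prop) (v u : V) : Prop :=
  G.Adj v u ∧ ∀ u', T u' → G.Adj v u' → u' = u

/-- The configuration. -/
def Conf [Fintype V] (G : SimpleGraph V) (D : Finset V) (d z : V) (m p : V → V) : Prop :=
  D.card = Gam G ∧ d ∈ D ∧
  (∀ w ∈ D, w ≠ d → m w ∉ D) ∧
  (∀ w ∈ D, ∀ w' ∈ D, w ≠ d → w' ≠ d → m w = m w' → w = w') ∧
  (∀ w ∈ D, w ≠ d → Only G (InS D d m) w (m w)) ∧
  Only G (InS D d m) z d ∧
  (∀ w ∈ D, w ≠ d → Only G (InS D d m) (m w) w ∨
    (G.Adj (m w) d ∧ Only G (InS D d m) (p w) w ∧ G.Adj (p w) z)) ∧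
  ∃ w ∈ D, w ≠ d ∧ G.Adj (m w) d

section

variable [Fintype V]

theorem conf_indep {G : SimpleGraph V} {D : Finset V} {d z : V} {m p : V → V}
    (h : Conf G D d z m p) : ∀ a ∈ D, ∀ b ∈ D, ¬ G.Adj a b := by
  obtain ⟨-, hd, hmD, -, hw, -, -, -⟩ := h
  intro a ha b hb hab
  by_cases had : a = d
  · by_cases hbd : b = d
    · rw [had, hbd] at hab
      exact G.irrefl hab
    · have := (hw b hb hbd).2 a (Or.inl ha) hab.symm
      exact hmD b hb hbd (by rw [← this]; exact ha)
  · have := (hw a ha had).2 b (Or.inl hb) hab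
    exact hmD a ha had (by rw [← this]; exact hb)

/-- Independent sets. -/
def Ind (G : SimpleGraph V) (I : Finset V) : Prop := ∀ a ∈ I, ∀ b ∈ I, ¬ G.Adj a b

omit [Fintype V] in
theorem Ind.ins [DecidableEq V] {G : SimpleGraph V} {I : Finset V} (h : Ind G I) {a : V}
    (ha : ∀ b ∈ I, ¬ G.Adj a b) : Ind G (insert a I) := by
  intro x hx y hy hxy
  rcases Finset.mem_insert.1 hx with hx | hx
  · rcases Finset.mem_insert.1 hy with hy | hy
    · rw [hx, hy] at hxy; exact G.irrefl hxy
    · rw [hx] at hxy; exact ha y hy hxy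
  · rcases Finset.mem_insert.1 hy with hy | hy
    · rw [hy] at hxy; exact ha x hx hxy.symm
    · exact h x hx y hy hxy

/-- The set of the configuration is a minimal total dominating set. -/
theorem conf_isMin {G : SimpleGraph V} {D : Finset V} {d z : V} {m p : V → V}
    (h : Conf G D d z m p) :
    ∃ S : Finset V, IsMin (TDom G) S ∧ S.card + 1 = 2 * Gam G ∧ ∀ u, u ∈ S ↔ InS D d m u := by
  classical
  have hind := conf_indep h
  obtain ⟨hc, hd, hmD, hinj, hw, hz, hty, hex⟩ := h
  refine ⟨D ∪ (D.erase d).image m, ?_, ?_, ?_⟩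
  rotate_left 2
  · intro u
    rw [Finset.mem_union, Finset.mem_image]
    constructor
    · rintro (hu | ⟨w, hw1, rfl⟩)
      · exact Or.inl hu
      · exact Or.inr ⟨w, (Finset.mem_erase.1 hw1).2, (Finset.mem_erase.1 hw1).1, rfl⟩
    · rintro (hu | ⟨w, hw1, hw2, rfl⟩)
      · exact Or.inl hu
      · exact Or.inr ⟨w, Finset.mem_erase.2 ⟨hw2, hw1⟩, rfl⟩
  rotate_left 1
  · rw [Finset.card_union_of_disjoint, Finset.card_image_of_injOn, Finset.card_erase_of_mem hd, hc]
    · have : 0 < D.card := Finset.card_pos.2 ⟨d, hd⟩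
      omega
    · intro a ha b hb hab
      have ha' := Finset.mem_erase.1 (Finset.mem_coe.1 ha)
      have hb' := Finset.mem_erase.1 (Finset.mem_coe.1 hb)
      exact hinj a ha'.2 b hb'.2 ha'.1 hb'.1 hab
    · rw [Finset.disjoint_right]
      intro u hu
      obtain ⟨w, hw1, rfl⟩ := Finset.mem_image.1 hu
      exact hmD w (Finset.mem_erase.1 hw1).2 (Finset.mem_erase.1 hw1).1
  · have hmem : ∀ u, u ∈ D ∪ (D.erase d).image m ↔ InS D d m u := by
      intro u
      rw [Finset.mem_union, Finset.mem_image]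
      constructor
      · rintro (hu | ⟨w, hw1, rfl⟩)
        · exact Or.inl hu
        · exact Or.inr ⟨w, (Finset.mem_erase.1 hw1).2, (Finset.mem_erase.1 hw1).1, rfl⟩
      · rintro (hu | ⟨w, hw1, hw2, rfl⟩)
        · exact Or.inl hu
        · exact Or.inr ⟨w, Finset.mem_erase.2 ⟨hw2, hw1⟩, rfl⟩
    constructor
    · intro v
      by_cases hv : InS D d m v
      · rcases hv with hv | ⟨w, hw1, hw2, rfl⟩
        · by_cases hvd : v = d
          · obtain ⟨w, hw1, hw2, hw3⟩ := hex
            refine ⟨m w, (hmem _).2 (Or.inr ⟨w, hw1, hw2, rfl⟩), ?_⟩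
            rw [hvd]
            exact hw3.symm
          · exact ⟨m v, (hmem _).2 (Or.inr ⟨v, hv, hvd, rfl⟩), (hw v hv hvd).1⟩
        · exact ⟨w, (hmem _).2 (Or.inl hw1), (hw w hw1 hw2).1.symm⟩
      · by_contra hcon
        push Not at hcon
        have hvD : v ∉ D := fun hvD => hv (Or.inl hvD)
        have hle := indep_le G (insert v D) (by
          intro a ha b hb hab
          rcases Finset.mem_insert.1 ha with ha | ha
          · rcases Finset.mem_insert.1 hb with hb | hb
            · rw [ha, hb] at hab; exact G.irrefl hab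
            · rw [ha] at hab
              exact hcon b ((hmem _).2 (Or.inl hb)) hab
          · rcases Finset.mem_insert.1 hb with hb | hb
            · rw [hb] at hab
              exact hcon a ((hmem _).2 (Or.inl ha)) hab.symm
            · exact hind a ha b hb hab)
        rw [Finset.card_insert_of_notMem hvD, hc] at hle
        omega
    · intro T hT hTD
      obtain ⟨u, hu1, hu2⟩ := Finset.exists_of_ssubset hT
      -- a private neighbour of `u`
      have hpriv : ∃ v, ∀ u', u' ∈ D ∪ (D.erase d).image m → G.Adj v u' → u' = u := by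
        rcases (hmem u).1 hu1 with hu | ⟨w, hw1, hw2, rfl⟩
        · by_cases hud : u = d
          · exact ⟨z, fun u' hu' hadj => by
              rw [hud]
              exact hz.2 u' ((hmem _).1 hu') hadj⟩
          · rcases hty u hu hud with h1 | ⟨-, h1, -⟩
            · exact ⟨m u, fun u' hu' hadj => h1.2 u' ((hmem _).1 hu') hadj⟩
            · exact ⟨p u, fun u' hu' hadj => h1.2 u' ((hmem _).1 hu') hadj⟩
        · exact ⟨w, fun u' hu' hadj => (hw w hw1 hw2).2 u' ((hmem _).1 hu') hadj⟩
      obtain ⟨v, hv⟩ := hpriv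
      obtain ⟨u', hu', hadj⟩ := hTD v
      have := hv u' (hT.subset hu') hadj
      rw [this] at hu'
      exact hu2 hu'

/-- Two vertices of the second type. -/
theorem conf_pair {G : SimpleGraph V} {D : Finset V} {d z : V} {m p : V → V}
    (h : Conf G D d z m p) {w w' : V} (hw : w ∈ D) (hw' : w' ∈ D) (hne : w ≠ w')
    (hd1 : G.Adj (m w) d) (hd2 : G.Adj (m w') d) (hwd : w ≠ d) (hwd' : w' ≠ d) :
    G.Adj (m w) (m w') ∨ G.Adj (p w) (p w') := by
  classical
  have hind := conf_indep h
  obtain ⟨hc, hd, hmD, hinj, hlf, hz, hty, -⟩ := h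
  have second : ∀ v ∈ D, v ≠ d → G.Adj (m v) d →
      Only G (InS D d m) (p v) v := by
    intro v hv hvd hadj
    rcases hty v hv hvd with h1 | h1
    · exact absurd (h1.2 d (Or.inl hd) hadj).symm hvd
    · exact h1.2.1
  have hp := second w hw hwd hd1
  have hp' := second w' hw' hwd' hd2
  by_contra hcon
  push Not at hcon
  obtain ⟨hc1, hc2⟩ := hcon
  have hInm : ∀ v ∈ D, v ≠ d → InS D d m (m v) := fun v hv hvd => Or.inr ⟨v, hv, hvd, rfl⟩
  -- the four new vertices and the others
  have hmo : ∀ v ∈ D, v ≠ d → ∀ v' ∈ D, v' ≠ d → v' ≠ v → ¬ G.Adj (m v) v' := by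
    intro v hv hvd v' hv' hvd' hvv hadj
    have := (hlf v' hv' hvd').2 (m v) (hInm v hv hvd) hadj.symm
    exact hvv (hinj v hv v' hv' hvd hvd' this).symm
  have hpo : ∀ v ∈ D, Only G (InS D d m) (p v) v → ∀ v' ∈ D, v' ≠ v → ¬ G.Adj (p v) v' := by
    intro v _ hv v' hv' hvv hadj
    exact hvv (hv.2 v' (Or.inl hv') hadj)
  have hpm : ∀ v ∈ D, Only G (InS D d m) (p v) v → ∀ v' ∈ D, v' ≠ d → ¬ G.Adj (p v) (m v') := by
    intro v hv hov v' hv' hvd' hadj
    have := hov.2 (m v') (hInm v' hv' hvd') hadj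
    exact hmD v' hv' hvd' (by rw [this]; exact hv)
  have hpD : ∀ v ∈ D, Only G (InS D d m) (p v) v → p v ∉ D := fun v hv hov hpv =>
    hind (p v) hpv v hv hov.1
  have q1 : p w ≠ m w := by
    intro he
    have h1 : G.Adj (p w) d := by rw [he]; exact hd1
    exact hwd (hp.2 d (Or.inl hd) h1).symm
  have q2 : p w ≠ m w' := by
    intro he
    have h1 : G.Adj (p w) d := by rw [he]; exact hd2
    exact hwd (hp.2 d (Or.inl hd) h1).symm
  have q3 : p w' ≠ m w := by
    intro he
    have h1 : G.Adj (p w') d := by rw [he]; exact hd1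
    exact hwd' (hp'.2 d (Or.inl hd) h1).symm
  have q4 : p w' ≠ m w' := by
    intro he
    have h1 : G.Adj (p w') d := by rw [he]; exact hd2
    exact hwd' (hp'.2 d (Or.inl hd) h1).symm
  have q5 : p w ≠ p w' := by
    intro he
    have h1 : G.Adj (p w) w' := by rw [he]; exact hp'.1
    exact hne (hp.2 w' (Or.inl hw') h1).symm
  have q6 : m w ≠ m w' := fun he => hne (hinj w hw w' hw' hwd hwd' he)
  set I0 : Finset V := ((D.erase d).erase w).erase w' with hI0
  have hI0m : ∀ v ∈ I0, v ∈ D ∧ v ≠ d ∧ v ≠ w ∧ v ≠ w' := by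
    intro v hv
    rw [hI0, Finset.mem_erase, Finset.mem_erase, Finset.mem_erase] at hv
    exact ⟨hv.2.2.2, hv.2.2.1, hv.2.1, hv.1⟩
  have hi0 : Ind G I0 := fun a ha b hb => hind a (hI0m a ha).1 b (hI0m b hb).1
  have hi1 : Ind G (insert (m w) I0) := hi0.ins (fun b hb => by
    obtain ⟨b1, b2, b3, b4⟩ := hI0m b hb
    exact hmo w hw hwd b b1 b2 b3)
  have hi2 : Ind G (insert (m w') (insert (m w) I0)) := hi1.ins (fun b hb => by
    rcases Finset.mem_insert.1 hb with rfl | hb
    · exact fun h1 => hc1 h1.symm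
    · obtain ⟨b1, b2, b3, b4⟩ := hI0m b hb
      exact hmo w' hw' hwd' b b1 b2 b4)
  have hi3 : Ind G (insert (p w) (insert (m w') (insert (m w) I0))) := hi2.ins (fun b hb => by
    rcases Finset.mem_insert.1 hb with rfl | hb
    · exact hpm w hw hp w' hw' hwd'
    · rcases Finset.mem_insert.1 hb with rfl | hb
      · exact hpm w hw hp w hw hwd
      · obtain ⟨b1, b2, b3, b4⟩ := hI0m b hb
        exact hpo w hw hp b b1 b3)
  have hi4 : Ind G (insert (p w') (insert (p w) (insert (m w') (insert (m w) I0)))) :=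
    hi3.ins (fun b hb => by
      rcases Finset.mem_insert.1 hb with rfl | hb
      · exact fun h1 => hc2 h1.symm
      · rcases Finset.mem_insert.1 hb with rfl | hb
        · exact hpm w' hw' hp' w' hw' hwd'
        · rcases Finset.mem_insert.1 hb with rfl | hb
          · exact hpm w' hw' hp' w hw hwd
          · obtain ⟨b1, b2, b3, b4⟩ := hI0m b hb
            exact hpo w' hw' hp' b b1 b4)
  have hle := indep_le G _ hi4
  have n1 : m w ∉ I0 := fun hh => hmD w hw hwd (hI0m _ hh).1
  have n2 : m w' ∉ insert (m w) I0 := by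
    intro hh
    rcases Finset.mem_insert.1 hh with hh | hh
    · exact q6 hh.symm
    · exact hmD w' hw' hwd' (hI0m _ hh).1
  have n3 : p w ∉ insert (m w') (insert (m w) I0) := by
    intro hh
    rcases Finset.mem_insert.1 hh with hh | hh
    · exact q2 hh
    · rcases Finset.mem_insert.1 hh with hh | hh
      · exact q1 hh
      · exact hpD w hw hp (hI0m _ hh).1
  have n4 : p w' ∉ insert (p w) (insert (m w') (insert (m w) I0)) := by
    intro hh
    rcases Finset.mem_insert.1 hh with hh | hh
    · exact q5 hh.symm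
    · rcases Finset.mem_insert.1 hh with hh | hh
      · exact q4 hh
      · rcases Finset.mem_insert.1 hh with hh | hh
        · exact q3 hh
        · exact hpD w' hw' hp' (hI0m _ hh).1
  have cI0 : I0.card + 3 = Gam G := by
    have e1 : w ∈ D.erase d := Finset.mem_erase.2 ⟨hwd, hw⟩
    have e2 : w' ∈ (D.erase d).erase w :=
      Finset.mem_erase.2 ⟨hne.symm, Finset.mem_erase.2 ⟨hwd', hw'⟩⟩
    have c1 := Finset.card_erase_add_one hd
    have c2 := Finset.card_erase_add_one e1
    have c3 := Finset.card_erase_add_one e2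
    rw [hI0]
    omega
  rw [Finset.card_insert_of_notMem n4, Finset.card_insert_of_notMem n3,
    Finset.card_insert_of_notMem n2, Finset.card_insert_of_notMem n1] at hle
  omega

/-- A minimal total dominating set with `2 Γ - 1` vertices comes from a configuration. -/
theorem exists_conf {G : SimpleGraph V} {S : Finset V} (h : IsMin (TDom G) S)
    (hS : S.card + 1 = 2 * Gam G) :
    ∃ (D : Finset V) (d z : V) (m p : V → V), Conf G D d z m p ∧ ∀ u, u ∈ S ↔ InS D d m u := by
  classical
  obtain ⟨D, hDS, hD⟩ := exists_min S (dom_of_tdom h.1)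
  choose! pn hpn1 hpn2 using exists_pn h
  have h1 : ∀ v ∈ S \ D, pn v ∈ D := by
    intro v hv
    rw [Finset.mem_sdiff] at hv
    by_contra hcon
    obtain ⟨u, hu1, hu2⟩ := hD.1 (pn v) hcon
    have := hpn2 v hv.1 u (hDS hu1) hu2
    rw [this] at hu1
    exact hv.2 hu1
  have h2 : Set.InjOn pn (S \ D : Finset V) := by
    intro v hv v' hv' hvv
    have hv1 := (Finset.mem_sdiff.1 (Finset.mem_coe.1 hv)).1
    have hv2 := (Finset.mem_sdiff.1 (Finset.mem_coe.1 hv')).1
    have h3 := hpn1 v' hv2
    rw [← hvv] at h3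
    exact (hpn2 v hv1 v' hv2 h3).symm
  have h3 : (S \ D).card ≤ D.card := Finset.card_le_card_of_injOn pn (fun v hv => h1 v hv) h2
  have h4 := Finset.card_sdiff_add_card_eq_card hDS
  have h5 : D.card ≤ Gam G := le_upper hD
  have hDc : D.card = Gam G := by omega
  have hSD : (S \ D).card + 1 = Gam G := by omega
  have himgsub : (S \ D).image pn ⊆ D := by
    intro w hw
    obtain ⟨v, hv, rfl⟩ := Finset.mem_image.1 hw
    exact h1 v hv
  have himgc : ((S \ D).image pn).card + 1 = D.card := by
    rw [Finset.card_image_of_injOn h2]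
    omega
  obtain ⟨d, hd⟩ : ∃ d, D \ (S \ D).image pn = {d} := by
    rw [← Finset.card_eq_one]
    have := Finset.card_sdiff_add_card_eq_card himgsub
    omega
  have hdD : d ∈ D := by
    have : d ∈ D \ (S \ D).image pn := by rw [hd]; exact Finset.mem_singleton_self d
    exact (Finset.mem_sdiff.1 this).1
  have hdn : ∀ v ∈ S \ D, pn v ≠ d := by
    intro v hv he
    have : d ∈ D \ (S \ D).image pn := by rw [hd]; exact Finset.mem_singleton_self d
    exact (Finset.mem_sdiff.1 this).2 (Finset.mem_image.2 ⟨v, hv, he⟩)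
  have hpart : ∀ w ∈ D, w ≠ d → ∃ v ∈ S \ D, pn v = w := by
    intro w hw hwd
    by_contra hcon
    have : w ∈ D \ (S \ D).image pn := by
      rw [Finset.mem_sdiff]
      refine ⟨hw, fun hh => hcon ?_⟩
      obtain ⟨v, hv, hvw⟩ := Finset.mem_image.1 hh
      exact ⟨v, hv, hvw⟩
    rw [hd, Finset.mem_singleton] at this
    exact hwd this
  choose! m hm1 hm2 using hpart
  have hmS : ∀ w ∈ D, w ≠ d → m w ∈ S := fun w hw hwd => (Finset.mem_sdiff.1 (hm1 w hw hwd)).1
  have hmD : ∀ w ∈ D, w ≠ d → m w ∉ D := fun w hw hwd => (Finset.mem_sdiff.1 (hm1 w hw hwd)).2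
  have hadj : ∀ w ∈ D, w ≠ d → G.Adj w (m w) := by
    intro w hw hwd
    have := hpn1 (m w) (hmS w hw hwd)
    rwa [hm2 w hw hwd] at this
  have huniq : ∀ w ∈ D, w ≠ d → ∀ u ∈ S, G.Adj w u → u = m w := by
    intro w hw hwd u hu hwu
    refine hpn2 (m w) (hmS w hw hwd) u hu ?_
    rwa [hm2 w hw hwd]
  have hminj : ∀ w ∈ D, ∀ w' ∈ D, w ≠ d → w' ≠ d → m w = m w' → w = w' := by
    intro w hw w' hw' hwd hwd' hmm
    rw [← hm2 w hw hwd, ← hm2 w' hw' hwd', hmm]
  have hInS : ∀ u, u ∈ S ↔ InS D d m u := by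
    intro u
    constructor
    · intro hu
      by_cases huD : u ∈ D
      · exact Or.inl huD
      · have hu' : u ∈ S \ D := Finset.mem_sdiff.2 ⟨hu, huD⟩
        have k1 := h1 u hu'
        have k2 := hdn u hu'
        refine Or.inr ⟨pn u, k1, k2, ?_⟩
        exact h2 (Finset.mem_coe.2 hu') (Finset.mem_coe.2 (hm1 _ k1 k2)) (hm2 _ k1 k2).symm
    · rintro (hu | ⟨w, hw1, hw2, rfl⟩)
      · exact hDS hu
      · exact hmS w hw1 hw2
  have hDind : ∀ a ∈ D, ∀ b ∈ D, ¬ G.Adj a b := by
    intro a ha b hb hab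
    by_cases had : a = d
    · by_cases hbd : b = d
      · rw [had, hbd] at hab
        exact G.irrefl hab
      · have := huniq b hb hbd a (hDS ha) hab.symm
        exact hmD b hb hbd (by rw [← this]; exact ha)
    · have := huniq a ha had b (hDS hb) hab
      exact hmD a ha had (by rw [← this]; exact hb)
  have hmo : ∀ v ∈ D, v ≠ d → ∀ v' ∈ D, v' ≠ d → v' ≠ v → ¬ G.Adj (m v) v' := by
    intro v hv hvd v' hv' hvd' hvv hadj'
    have := huniq v' hv' hvd' (m v) (hmS v hv hvd) hadj'.symm
    exact hvv (hminj v hv v' hv' hvd hvd' this).symm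
  have hdS := hDS hdD
  have hz1 : G.Adj (pn d) d := hpn1 d hdS
  have hz2 : ∀ u ∈ S, G.Adj (pn d) u → u = d := hpn2 d hdS
  have hzS : pn d ∉ S := by
    intro hzS
    rcases (hInS _).1 hzS with hz | ⟨w, hw1, hw2, hw3⟩
    · exact hDind _ hz d hdD hz1
    · have hh : G.Adj (pn d) w := by rw [hw3]; exact (hadj w hw1 hw2).symm
      exact hw2 (hz2 w (hDS hw1) hh)
  have htype : ∀ w ∈ D, w ≠ d → Only G (InS D d m) (m w) w ∨
      (G.Adj (m w) d ∧ Only G (InS D d m) (pn w) w ∧ G.Adj (pn w) (pn d)) := by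
    intro w hw hwd
    have hwS := hDS hw
    have o2 : Only G (InS D d m) (pn w) w :=
      ⟨hpn1 w hwS, fun u hu hau => hpn2 w hwS u ((hInS u).2 hu) hau⟩
    by_cases hx : pn w ∈ S
    · left
      have he := huniq w hw hwd _ hx (hpn1 w hwS).symm
      rwa [he] at o2
    · right
      have hpm : ¬ G.Adj (pn w) (m w) := by
        intro hh
        have := hpn2 w hwS (m w) (hmS w hw hwd) hh
        exact hmD w hw hwd (by rw [this]; exact hw)
      have hpo : ∀ v' ∈ D, v' ≠ w → ¬ G.Adj (pn w) v' := fun v' hv' hvv hh =>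
        hvv (hpn2 w hwS v' (hDS hv') hh)
      have hmd : G.Adj (m w) d := by
        by_contra hmd
        have i0 : Ind G (D.erase w) := fun a ha b hb =>
          hDind a (Finset.mem_erase.1 ha).2 b (Finset.mem_erase.1 hb).2
        have i1 : Ind G (insert (m w) (D.erase w)) := i0.ins (fun b hb => by
          obtain ⟨hb1, hb2⟩ := Finset.mem_erase.1 hb
          by_cases hbd : b = d
          · rw [hbd]; exact hmd
          · exact hmo w hw hwd b hb2 hbd hb1)
        have i2 : Ind G (insert (pn w) (insert (m w) (D.erase w))) := i1.ins (fun b hb => by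
          rcases Finset.mem_insert.1 hb with rfl | hb
          · exact hpm
          · obtain ⟨hb1, hb2⟩ := Finset.mem_erase.1 hb
            exact hpo b hb2 hb1)
        have hle := indep_le G _ i2
        have n1 : m w ∉ D.erase w := fun hh => hmD w hw hwd (Finset.mem_erase.1 hh).2
        have n2 : pn w ∉ insert (m w) (D.erase w) := by
          intro hh
          rcases Finset.mem_insert.1 hh with hh | hh
          · exact hx (by rw [hh]; exact hmS w hw hwd)
          · exact hx (hDS (Finset.mem_erase.1 hh).2)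
        have cc := Finset.card_erase_add_one hw
        rw [Finset.card_insert_of_notMem n2, Finset.card_insert_of_notMem n1] at hle
        omega
      refine ⟨hmd, o2, ?_⟩
      by_contra hpz
      have j0 : ∀ v ∈ (D.erase d).erase w, v ∈ D ∧ v ≠ d ∧ v ≠ w := by
        intro v hv
        rw [Finset.mem_erase, Finset.mem_erase] at hv
        exact ⟨hv.2.2, hv.2.1, hv.1⟩
      have i0 : Ind G ((D.erase d).erase w) := fun a ha b hb =>
        hDind a (j0 a ha).1 b (j0 b hb).1
      have i1 : Ind G (insert (m w) ((D.erase d).erase w)) := i0.ins (fun b hb => by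
        obtain ⟨b1, b2, b3⟩ := j0 b hb
        exact hmo w hw hwd b b1 b2 b3)
      have i2 : Ind G (insert (pn w) (insert (m w) ((D.erase d).erase w))) :=
        i1.ins (fun b hb => by
          rcases Finset.mem_insert.1 hb with rfl | hb
          · exact hpm
          · obtain ⟨b1, b2, b3⟩ := j0 b hb
            exact hpo b b1 b3)
      have i3 : Ind G (insert (pn d) (insert (pn w) (insert (m w) ((D.erase d).erase w)))) :=
        i2.ins (fun b hb => by
          rcases Finset.mem_insert.1 hb with rfl | hb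
          · exact fun hh => hpz hh.symm
          · rcases Finset.mem_insert.1 hb with rfl | hb
            · intro hh
              have := hz2 (m w) (hmS w hw hwd) hh
              exact hmD w hw hwd (by rw [this]; exact hdD)
            · obtain ⟨b1, b2, b3⟩ := j0 b hb
              exact fun hh => b2 (hz2 b (hDS b1) hh))
      have hle := indep_le G _ i3
      have n1 : m w ∉ (D.erase d).erase w := fun hh => hmD w hw hwd (j0 _ hh).1
      have n2 : pn w ∉ insert (m w) ((D.erase d).erase w) := by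
        intro hh
        rcases Finset.mem_insert.1 hh with hh | hh
        · exact hx (by rw [hh]; exact hmS w hw hwd)
        · exact hx (hDS (j0 _ hh).1)
      have n3 : pn d ∉ insert (pn w) (insert (m w) ((D.erase d).erase w)) := by
        intro hh
        rcases Finset.mem_insert.1 hh with hh | hh
        · have hpd : G.Adj (pn w) d := by rw [← hh]; exact hz1
          exact hwd (hpn2 w hwS d hdS hpd).symm
        · rcases Finset.mem_insert.1 hh with hh | hh
          · exact hzS (by rw [hh]; exact hmS w hw hwd)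
          · exact hzS (hDS (j0 _ hh).1)
      have c1 := Finset.card_erase_add_one hdD
      have c2 := Finset.card_erase_add_one (Finset.mem_erase.2 ⟨hwd, hw⟩ : w ∈ D.erase d)
      rw [Finset.card_insert_of_notMem n3, Finset.card_insert_of_notMem n2,
        Finset.card_insert_of_notMem n1] at hle
      omega
  have hex : ∃ w ∈ D, w ≠ d ∧ G.Adj (m w) d := by
    obtain ⟨u, hu1, hu2⟩ := h.1 d
    rcases (hInS u).1 hu1 with hu | ⟨w, hw1, hw2, rfl⟩
    · exact absurd hu2 (hDind d hdD u hu)
    · exact ⟨w, hw1, hw2, hu2.symm⟩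
  refine ⟨D, d, pn d, m, pn, ⟨hDc, hdD, hmD, hminj, ?_, ?_, htype, hex⟩, hInS⟩
  · intro w hw hwd
    exact ⟨hadj w hw hwd, fun u hu hwu => huniq w hw hwd u ((hInS u).2 hu) hwu⟩
  · exact ⟨hz1, fun u hu hzu => hz2 u ((hInS u).2 hu) hzu⟩

theorem near_iff (G : SimpleGraph V) (hG : ∀ v, ∃ u, G.Adj v u) :
    GamT G + 1 = 2 * Gam G ↔ (¬ ∃ x y : Fin (Gam G) → V, IsIM G x y) ∧
      ∃ (D : Finset V) (d z : V) (m p : V → V), Conf G D d z m p := by
  classical
  have hchar := (char G hG)
  obtain ⟨S0, -, hS0⟩ := exists_min (P := TDom G) Finset.univ (fun v => by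
    obtain ⟨u, hu⟩ := hG v
    exact ⟨u, Finset.mem_univ u, hu⟩)
  constructor
  · intro h
    obtain ⟨S, hS1, hS2⟩ := exists_upper hS0
    have hS3 : S.card + 1 = 2 * Gam G := by
      rw [hS2]; exact h
    obtain ⟨D, d, z, m, p, hc, -⟩ := exists_conf hS1 hS3
    refine ⟨fun hx => ?_, D, d, z, m, p, hc⟩
    have := hchar.2 hx
    omega
  · rintro ⟨hno, D, d, z, m, p, hc⟩
    obtain ⟨S, hS1, hS2, -⟩ := conf_isMin hc
    have k1 : S.card ≤ GamT G := le_upper hS1
    have k2 := gamT_le G
    have k3 : GamT G ≠ 2 * Gam G := fun he => hno (hchar.1 he)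
    omega

end

end Pool.Agent.Y414.UT
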