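import Mathlib
import Pool.Agent.Y414.UT.Near

set_option autoImplicit false

/-!
# Triangle-free graphs whose upper total domination number is at least `2 Γ - 1`
-/

namespace Pool.Agent.Y414.UT

open Pool.Agent.H328R3.UTD

/-- The disjoint union of a 5-cycle and `k` edges. -/
def pent (k : ℕ) : SimpleGraph (Fin 5 ⊕ (Fin k × Bool)) where
  Adj a b := match a, b with
    | .inl i, .inl j => j = i + 1 ∨ i = j + 1
    | .inl _, .inr _ => False
    | .inr _, .inl _ => False
    | .inr p, .inr q => p.1 = q.1 ∧ p.2 ≠ q.2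
  symm := ⟨by
    rintro (a | a) (b | b) h
    · exact Or.symm h
    · exact h
    · exact h
    · exact ⟨h.1.symm, h.2.symm⟩⟩
  loopless := ⟨by
    rintro (a | a) h
    · have h' : a = a + 1 ∨ a = a + 1 := h
      clear h
      revert a
      decide
    · exact h.2 rfl⟩

/-- Triangle-free graphs. -/
def TriFree {V : Type} (G : SimpleGraph V) : Prop :=
  ∀ a b c, G.Adj a b → G.Adj b c → ¬ G.Adj a c

theorem pent_twin {k : ℕ} {a b : Fin 5 ⊕ (Fin k × Bool)}
    (h : ∀ c, (pent k).Adj a c ↔ (pent k).Adj b c) : a = b := by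
  rcases a with i | ⟨i, s⟩ <;> rcases b with j | ⟨j, t⟩
  · have h' : ∀ c : Fin 5, (c = i + 1 ∨ i = c + 1) ↔ (c = j + 1 ∨ j = c + 1) :=
      fun c => h (Sum.inl c)
    have : i = j := by
      clear h
      revert i j
      decide
    rw [this]
  · exact absurd ((h (Sum.inl (i + 1))).1 (Or.inl rfl)) (fun hh => hh)
  · exact absurd ((h (Sum.inl (j + 1))).2 (Or.inl rfl)) (fun hh => hh)
  · have h1 : (pent k).Adj (Sum.inr (i, s)) (Sum.inr (i, !s)) := by
      refine ⟨rfl, ?_⟩
      cases s <;> simp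
    have h2 : j = i ∧ t ≠ !s := (h _).1 h1
    obtain ⟨rfl, h3⟩ := h2
    have : s = t := by
      revert h3
      cases s <;> cases t <;> decide
    rw [this]

variable {V : Type} [Fintype V]

theorem trifree_iso {G : SimpleGraph V} (htf : TriFree G)
    {D : Finset V} {d z : V} {m p : V → V} (h : Conf G D d z m p) :
    ∃ k, k + 2 = Gam G ∧ Nonempty (pent k ≃g G) := by
  classical
  have hind := conf_indep h
  have hpair := fun w w' => conf_pair h (w := w) (w' := w')
  obtain ⟨hc, hd, hmD, hinj, hlf, hz, hty, w, hw, hwd, hwa⟩ := h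
  have hInm : ∀ v ∈ D, v ≠ d → InS D d m (m v) := fun v hv hvd => Or.inr ⟨v, hv, hvd, rfl⟩
  have second : ∀ v ∈ D, v ≠ d → G.Adj (m v) d →
      Only G (InS D d m) (p v) v ∧ G.Adj (p v) z := by
    intro v hv hvd hadj
    rcases hty v hv hvd with h1 | h1
    · exact absurd (h1.2 d (Or.inl hd) hadj).symm hvd
    · exact h1.2
  obtain ⟨hp, hpz⟩ := second w hw hwd hwa
  have huni : ∀ v ∈ D, v ≠ d → v ≠ w → ¬ G.Adj (m v) d := by
    intro v hv hvd hvw hadj
    rcases hpair w v hw hv hvw.symm hwa hadj hwd hvd with h1 | h1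
    · exact htf _ _ _ h1 hadj hwa
    · exact htf _ _ _ h1 (second v hv hvd hadj).2 hpz
  have hfirst : ∀ v ∈ D, v ≠ d → v ≠ w → Only G (InS D d m) (m v) v := by
    intro v hv hvd hvw
    rcases hty v hv hvd with h1 | h1
    · exact h1
    · exact absurd h1.1 (huni v hv hvd hvw)
  have hmo : ∀ v ∈ D, v ≠ d → ∀ v' ∈ D, v' ≠ d → v' ≠ v → ¬ G.Adj (m v) v' := by
    intro v hv hvd v' hv' hvd' hvv hadj
    have := (hlf v' hv' hvd').2 (m v) (hInm v hv hvd) hadj.symm
    exact hvv (hinj v hv v' hv' hvd hvd' this).symm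
  -- the 5-cycle
  have a01 : G.Adj d (m w) := hwa.symm
  have a12 : G.Adj (m w) w := (hlf w hw hwd).1.symm
  have a23 : G.Adj w (p w) := hp.1.symm
  have a34 : G.Adj (p w) z := hpz
  have a40 : G.Adj z d := hz.1
  have b02 : ¬ G.Adj d w := hind d hd w hw
  have b13 : ¬ G.Adj (m w) (p w) := fun hh => htf _ _ _ a12 a23 hh
  have b24 : ¬ G.Adj w z := fun hh => htf _ _ _ a23 a34 hh
  have b30 : ¬ G.Adj (p w) d := fun hh => htf _ _ _ a34 a40 hh
  have b41 : ¬ G.Adj z (m w) := fun hh => htf _ _ _ a40 a01 hh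
  set I0 : Finset V := (D.erase d).erase w with hI0
  have hI0m : ∀ v ∈ I0, v ∈ D ∧ v ≠ d ∧ v ≠ w := by
    intro v hv
    rw [hI0, Finset.mem_erase, Finset.mem_erase] at hv
    exact ⟨hv.2.2, hv.2.1, hv.1⟩
  have cI0 : I0.card + 2 = Gam G := by
    have c1 := Finset.card_erase_add_one hd
    have c2 := Finset.card_erase_add_one (Finset.mem_erase.2 ⟨hwd, hw⟩ : w ∈ D.erase d)
    rw [hI0]
    omega
  let c : Fin 5 → V := ![d, m w, w, p w, z]
  -- no edges between the cycle and the pairs
  have e1 : ∀ i, ∀ v ∈ I0, ¬ G.Adj (c i) v := by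
    intro i v hv
    obtain ⟨v1, v2, v3⟩ := hI0m v hv
    fin_cases i
    · exact hind d hd v v1
    · exact hmo w hw hwd v v1 v2 v3
    · exact hind w hw v v1
    · exact fun hh => v3 (hp.2 v (Or.inl v1) hh)
    · exact fun hh => v2 (hz.2 v (Or.inl v1) hh)
  have e2 : ∀ i, ∀ v ∈ I0, ¬ G.Adj (c i) (m v) := by
    intro i v hv
    obtain ⟨v1, v2, v3⟩ := hI0m v hv
    fin_cases i
    · exact fun hh => huni v v1 v2 v3 hh.symm
    · intro hh
      have := (hfirst v v1 v2 v3).2 (m w) (hInm w hw hwd) hh.symm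
      exact hmD w hw hwd (by rw [this]; exact v1)
    · exact fun hh => hmo v v1 v2 w hw hwd v3.symm hh.symm
    · intro hh
      have := hp.2 (m v) (hInm v v1 v2) hh
      exact hmD v v1 v2 (by rw [this]; exact hw)
    · intro hh
      have := hz.2 (m v) (hInm v v1 v2) hh
      exact hmD v v1 v2 (by rw [this]; exact hd)
  have e3 : ∀ v ∈ I0, ∀ v' ∈ I0, v ≠ v' → ¬ G.Adj (m v) (m v') := by
    intro v hv v' hv' hvv hh
    obtain ⟨v1, v2, v3⟩ := hI0m v hv
    obtain ⟨w1, w2, w3⟩ := hI0m v' hv'
    have := (hfirst v v1 v2 v3).2 (m v') (hInm v' w1 w2) hh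
    exact hmD v' w1 w2 (by rw [this]; exact v1)
  have e4 : ∀ v ∈ I0, ∀ v' ∈ I0, v ≠ v' → ¬ G.Adj v (m v') := by
    intro v hv v' hv' hvv hh
    obtain ⟨v1, v2, v3⟩ := hI0m v hv
    obtain ⟨w1, w2, w3⟩ := hI0m v' hv'
    exact hmo v' w1 w2 v v1 v2 hvv hh.symm
  -- every vertex is one of these
  have hall : ∀ u, (∃ i, u = c i) ∨ ∃ v ∈ I0, u = v ∨ u = m v := by
    intro u
    by_contra hcon
    push Not at hcon
    obtain ⟨hu1, hu2⟩ := hcon
    let t : V → V := fun v => if G.Adj u v then m v else v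
    have ht : ∀ v ∈ I0, t v = m v ∨ t v = v := by
      intro v hv
      by_cases h1 : G.Adj u v
      · left; exact if_pos h1
      · right; exact if_neg h1
    have htu : ∀ v ∈ I0, ¬ G.Adj u (t v) := by
      intro v hv
      obtain ⟨v1, v2, v3⟩ := hI0m v hv
      by_cases h1 : G.Adj u v
      · have : t v = m v := if_pos h1
        rw [this]
        exact fun hh => htf _ _ _ h1 (hlf v v1 v2).1 hh
      · have : t v = v := if_neg h1
        rw [this]; exact h1
    have htt : ∀ v ∈ I0, ∀ v' ∈ I0, ¬ G.Adj (t v) (t v') := by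
      intro v hv v' hv'
      by_cases hvv : v = v'
      · rw [hvv]; exact G.irrefl
      · obtain ⟨v1, v2, v3⟩ := hI0m v hv
        obtain ⟨w1, w2, w3⟩ := hI0m v' hv'
        rcases ht v hv with h1 | h1 <;> rcases ht v' hv' with h2 | h2 <;> rw [h1, h2]
        · exact e3 v hv v' hv' hvv
        · exact fun hh => e4 v' hv' v hv (Ne.symm hvv) hh.symm
        · exact e4 v hv v' hv' hvv
        · exact hind v v1 v' w1
    have htinj : Set.InjOn t (I0 : Set V) := by
      intro v hv v' hv' hvv
      obtain ⟨v1, v2, v3⟩ := hI0m v hv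
      obtain ⟨w1, w2, w3⟩ := hI0m v' hv'
      rcases ht v hv with h1 | h1 <;> rcases ht v' hv' with h2 | h2 <;> rw [h1, h2] at hvv
      · exact hinj v v1 v' w1 v2 w2 hvv
      · exact absurd (by rw [hvv]; exact w1) (hmD v v1 v2)
      · exact absurd (by rw [← hvv]; exact v1) (hmD v' w1 w2)
      · exact hvv
    -- two vertices of the cycle
    have hcc : ∃ i j, ¬ G.Adj (c i) (c j) ∧ c i ≠ c j ∧ ¬ G.Adj u (c i) ∧ ¬ G.Adj u (c j) := by
      have n02 : d ≠ w := hwd.symm
      have n13 : m w ≠ p w := fun hh => b30 (by rw [← hh]; exact hwa)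
      have n24 : w ≠ z := fun hh => b02 (by rw [hh]; exact a40.symm)
      have n30 : p w ≠ d := fun hh => b02 (by rw [← hh]; exact hp.1)
      have n41 : z ≠ m w := fun hh => b24 (by rw [hh]; exact a12.symm)
      by_cases u0 : G.Adj u d
      · have u1 : ¬ G.Adj u (m w) := fun hh => htf _ _ _ u0 a01 hh
        have u4 : ¬ G.Adj u z := fun hh => htf _ _ _ u0 a40.symm hh
        exact ⟨4, 1, b41, n41, u4, u1⟩
      · by_cases u2 : G.Adj u w
        · have u3 : ¬ G.Adj u (p w) := fun hh => htf _ _ _ u2 a23 hh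
          exact ⟨3, 0, b30, n30, u3, u0⟩
        · exact ⟨0, 2, b02, n02, u0, u2⟩
    obtain ⟨i, j, g1, g2, g3, g4⟩ := hcc
    have i1 : Ind G (I0.image t) := by
      intro a ha b hb
      obtain ⟨v, hv, rfl⟩ := Finset.mem_image.1 ha
      obtain ⟨v', hv', rfl⟩ := Finset.mem_image.1 hb
      exact htt v hv v' hv'
    have ct : ∀ i, ∀ v ∈ I0, ¬ G.Adj (c i) (t v) := by
      intro i v hv
      rcases ht v hv with h1 | h1 <;> rw [h1]
      · exact e2 i v hv
      · exact e1 i v hv
    have i2 : Ind G (insert (c j) (I0.image t)) := i1.ins (fun b hb => by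
      obtain ⟨v, hv, rfl⟩ := Finset.mem_image.1 hb
      exact ct j v hv)
    have i3 : Ind G (insert (c i) (insert (c j) (I0.image t))) := i2.ins (fun b hb => by
      rcases Finset.mem_insert.1 hb with hb | hb
      · rw [hb]; exact g1
      · obtain ⟨v, hv, rfl⟩ := Finset.mem_image.1 hb
        exact ct i v hv)
    have i4 : Ind G (insert u (insert (c i) (insert (c j) (I0.image t)))) :=
      i3.ins (fun b hb => by
        rcases Finset.mem_insert.1 hb with hb | hb
        · rw [hb]; exact g3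
        · rcases Finset.mem_insert.1 hb with hb | hb
          · rw [hb]; exact g4
          · obtain ⟨v, hv, rfl⟩ := Finset.mem_image.1 hb
            exact htu v hv)
    have hle := indep_le G _ i4
    -- vertices of the cycle are not in the image of `t`
    have cdeg : ∀ i, ∃ j, G.Adj (c j) (c i) := by
      intro i
      fin_cases i
      · exact ⟨4, a40⟩
      · exact ⟨0, a01⟩
      · exact ⟨1, a12⟩
      · exact ⟨2, a23⟩
      · exact ⟨3, a34⟩
    have cn : ∀ i, c i ∉ I0.image t := by
      intro i hh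
      obtain ⟨v, hv, hvi⟩ := Finset.mem_image.1 hh
      obtain ⟨j, hj⟩ := cdeg i
      rw [← hvi] at hj
      exact ct j v hv hj
    have un : u ∉ I0.image t := by
      intro hh
      obtain ⟨v, hv, hvi⟩ := Finset.mem_image.1 hh
      rcases ht v hv with h1 | h1 <;> rw [h1] at hvi
      · exact (hu2 v hv).2 hvi.symm
      · exact (hu2 v hv).1 hvi.symm
    rw [Finset.card_insert_of_notMem, Finset.card_insert_of_notMem,
      Finset.card_insert_of_notMem (cn j), Finset.card_image_of_injOn htinj] at hle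
    · omega
    · intro hh
      rcases Finset.mem_insert.1 hh with hh | hh
      · exact g2 hh
      · exact cn i hh
    · intro hh
      rcases Finset.mem_insert.1 hh with hh | hh
      · exact hu1 i hh
      · rcases Finset.mem_insert.1 hh with hh | hh
        · exact hu1 j hh
        · exact un hh
  -- the isomorphism
  let e : Fin I0.card ≃ I0 := I0.equivFin.symm
  let x : Fin I0.card → V := fun i => (e i : V)
  have hx : ∀ i, x i ∈ I0 := fun i => (e i).2
  have hxinj : ∀ i j, x i = x j → i = j := fun i j hij => e.injective (Subtype.ext hij)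
  let y : Fin I0.card × Bool → V := fun q => if q.2 = true then x q.1 else m (x q.1)
  have hyt : ∀ i, y (i, true) = x i := fun i => if_pos rfl
  have hyf : ∀ i, y (i, false) = m (x i) := fun i => if_neg (by simp)
  let f : Fin 5 ⊕ (Fin I0.card × Bool) → V := Sum.elim c y
  have hcy : ∀ i q, ¬ G.Adj (c i) (y q) := by
    rintro i ⟨q, s⟩
    cases s
    · rw [hyf]; exact e2 i _ (hx q)
    · rw [hyt]; exact e1 i _ (hx q)
  have hadj : ∀ a b, G.Adj (f a) (f b) ↔ (pent I0.card).Adj a b := by
    rintro (i | ⟨i, s⟩) (j | ⟨j, t⟩)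
    · change G.Adj (c i) (c j) ↔ (j = i + 1 ∨ i = j + 1)
      fin_cases i <;> fin_cases j <;>
        simp [c, a01, a12, a23, a34, a40, b02, b13, b24, b30, b41, a01.symm, a12.symm, a23.symm,
          a34.symm, a40.symm, G.adj_comm w d, G.adj_comm (p w) (m w), G.adj_comm z w,
          G.adj_comm d (p w), G.adj_comm (m w) z]
    · change G.Adj (c i) (y (j, t)) ↔ False
      exact iff_false_intro (hcy i _)
    · change G.Adj (y (i, s)) (c j) ↔ False
      exact iff_false_intro (fun hh => hcy j _ hh.symm)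
    · change G.Adj (y (i, s)) (y (j, t)) ↔ (i = j ∧ s ≠ t)
      obtain ⟨v1, v2, v3⟩ := hI0m _ (hx i)
      obtain ⟨w1, w2, w3⟩ := hI0m _ (hx j)
      cases s <;> cases t
      · rw [hyf, hyf]
        constructor
        · intro hh
          by_cases hij : x i = x j
          · rw [hij] at hh; exact absurd hh G.irrefl
          · exact absurd hh (e3 _ (hx i) _ (hx j) hij)
        · rintro ⟨_, hh⟩; exact absurd rfl hh
      · rw [hyf, hyt]
        constructor
        · intro hh
          by_cases hij : x i = x j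
          · exact ⟨hxinj i j hij, by decide⟩
          · exact absurd hh.symm (e4 _ (hx j) _ (hx i) (Ne.symm hij))
        · rintro ⟨rfl, _⟩; exact (hlf _ v1 v2).1.symm
      · rw [hyf, hyt]
        constructor
        · intro hh
          by_cases hij : x i = x j
          · exact ⟨hxinj i j hij, by decide⟩
          · exact absurd hh (e4 _ (hx i) _ (hx j) hij)
        · rintro ⟨rfl, _⟩; exact (hlf _ v1 v2).1
      · rw [hyt, hyt]
        constructor
        · intro hh
          exact absurd hh (hind _ v1 _ w1)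
        · rintro ⟨_, hh⟩; exact absurd rfl hh
  have hfinj : Function.Injective f := by
    intro a b hab
    refine pent_twin (fun c' => ?_)
    rw [← hadj, ← hadj, hab]
  have hfsurj : Function.Surjective f := by
    intro u
    rcases hall u with ⟨i, hi⟩ | ⟨v, hv, hv2⟩
    · exact ⟨Sum.inl i, hi.symm⟩
    · have hxe : x (e.symm ⟨v, hv⟩) = v := by
        change ((e (e.symm ⟨v, hv⟩)) : V) = v
        rw [e.apply_symm_apply]
      rcases hv2 with rfl | rfl
      · exact ⟨Sum.inr (e.symm ⟨u, hv⟩, true), by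
          change y (e.symm ⟨u, hv⟩, true) = u
          rw [hyt, hxe]⟩
      · exact ⟨Sum.inr (e.symm ⟨v, hv⟩, false), by
          change y (e.symm ⟨v, hv⟩, false) = m v
          rw [hyf, hxe]⟩
  exact ⟨I0.card, cI0, ⟨⟨Equiv.ofBijective f ⟨hfinj, hfsurj⟩, fun {a b} => hadj a b⟩⟩⟩

end Pool.Agent.Y414.UT
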