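import Mathlib
import Pool.Agent.Y414.UT.TriFree

set_option autoImplicit false

/-!
# The disjoint union of a 5-cycle and edges
-/

namespace Pool.Agent.Y414.UT

open Pool.Agent.H328R3.UTD

/-- Isomorphic graphs, one inequality. -/
theorem upper_le_of_equiv {V W : Type} [Fintype V] [Fintype W] (e : V ≃ W)
    {P : Finset V → Prop} {Q : Finset W → Prop}
    (hPQ : ∀ S, P S ↔ Q (S.map e.toEmbedding)) (hne : ∃ S, P S) : upper P ≤ upper Q := by
  classical
  obtain ⟨S0, hS0⟩ := hne
  obtain ⟨S1, -, hS1⟩ := exists_min S0 hS0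
  obtain ⟨S, hS, hc⟩ := exists_upper hS1
  have hmin : IsMin Q (S.map e.toEmbedding) := by
    refine ⟨(hPQ S).1 hS.1, ?_⟩
    intro T hT hQ
    have hTT : T = (T.map e.symm.toEmbedding).map e.toEmbedding := by
      ext a
      simp
    rw [hTT] at hQ hT
    exact hS.2 _ (Finset.map_ssubset_map.1 hT) ((hPQ _).2 hQ)
  have := le_upper hmin
  rwa [Finset.card_map, hc] at this

theorem dom_iso {V W : Type} {G : SimpleGraph V} {H : SimpleGraph W} (f : G ≃g H)
    (S : Finset V) : Dom G S ↔ Dom H (S.map f.toEquiv.toEmbedding) := by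
  constructor
  · intro h w hw
    have hv : f.symm w ∉ S := by
      intro hh
      refine hw (Finset.mem_map.2 ⟨_, hh, ?_⟩)
      exact f.apply_symm_apply w
    obtain ⟨u, hu, hadj⟩ := h _ hv
    refine ⟨f u, Finset.mem_map.2 ⟨u, hu, rfl⟩, ?_⟩
    have := f.map_adj_iff.2 hadj
    rwa [f.apply_symm_apply] at this
  · intro h v hv
    have hw : f v ∉ S.map f.toEquiv.toEmbedding := by
      intro hh
      obtain ⟨u, hu, huv⟩ := Finset.mem_map.1 hh
      have : u = v := f.injective huv
      exact hv (by rw [← this]; exact hu)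
    obtain ⟨u', hu', hadj⟩ := h _ hw
    obtain ⟨u, hu, rfl⟩ := Finset.mem_map.1 hu'
    exact ⟨u, hu, f.map_adj_iff.1 hadj⟩

theorem tdom_iso {V W : Type} {G : SimpleGraph V} {H : SimpleGraph W} (f : G ≃g H)
    (S : Finset V) : TDom G S ↔ TDom H (S.map f.toEquiv.toEmbedding) := by
  constructor
  · intro h w
    obtain ⟨u, hu, hadj⟩ := h (f.symm w)
    refine ⟨f u, Finset.mem_map.2 ⟨u, hu, rfl⟩, ?_⟩
    have := f.map_adj_iff.2 hadj
    rwa [f.apply_symm_apply] at this
  · intro h v
    obtain ⟨u', hu', hadj⟩ := h (f v)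
    obtain ⟨u, hu, rfl⟩ := Finset.mem_map.1 hu'
    exact ⟨u, hu, f.map_adj_iff.1 hadj⟩

theorem gam_iso {V W : Type} [Fintype V] [Fintype W] {G : SimpleGraph V} {H : SimpleGraph W}
    (f : G ≃g H) : Gam G = Gam H := by
  apply le_antisymm
  · exact upper_le_of_equiv f.toEquiv (dom_iso f)
      ⟨Finset.univ, fun v hv => absurd (Finset.mem_univ v) hv⟩
  · exact upper_le_of_equiv f.symm.toEquiv (dom_iso f.symm)
      ⟨Finset.univ, fun v hv => absurd (Finset.mem_univ v) hv⟩

theorem gamT_iso {V W : Type} [Fintype V] [Fintype W] {G : SimpleGraph V} {H : SimpleGraph W}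
    (f : G ≃g H) (hG : ∀ v, ∃ u, G.Adj v u) : GamT G = GamT H := by
  have hH : ∀ v, ∃ u, H.Adj v u := by
    intro v
    obtain ⟨u, hu⟩ := hG (f.symm v)
    refine ⟨f u, ?_⟩
    have := f.map_adj_iff.2 hu
    rwa [f.apply_symm_apply] at this
  apply le_antisymm
  · exact upper_le_of_equiv f.toEquiv (tdom_iso f)
      ⟨Finset.univ, fun v => by obtain ⟨u, hu⟩ := hG v; exact ⟨u, Finset.mem_univ u, hu⟩⟩
  · exact upper_le_of_equiv f.symm.toEquiv (tdom_iso f.symm)
      ⟨Finset.univ, fun v => by obtain ⟨u, hu⟩ := hH v; exact ⟨u, Finset.mem_univ u, hu⟩⟩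

theorem pent_iso_free (k : ℕ) (v : Fin 5 ⊕ (Fin k × Bool)) : ∃ u, (pent k).Adj v u := by
  rcases v with i | ⟨i, s⟩
  · exact ⟨Sum.inl (i + 1), Or.inl rfl⟩
  · exact ⟨Sum.inr (i, !s), rfl, by cases s <;> simp⟩

theorem pent_triFree (k : ℕ) : TriFree (pent k) := by
  rintro (a | a) (b | b) (c | c) h1 h2 h3
  · have h1' : b = a + 1 ∨ a = b + 1 := h1
    have h2' : c = b + 1 ∨ b = c + 1 := h2
    have h3' : c = a + 1 ∨ a = c + 1 := h3
    clear h1 h2 h3
    revert a b c
    decide
  · exact h2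
  · exact h1
  · exact h1
  · exact h1
  · exact h1
  · exact h2
  · have h1' : a.2 ≠ b.2 := h1.2
    have h2' : b.2 ≠ c.2 := h2.2
    have h3' : a.2 ≠ c.2 := h3.2
    generalize a.2 = x at h1' h3'
    generalize b.2 = y at h1' h2'
    generalize c.2 = z at h2' h3'
    revert h1' h2' h3'
    revert x y z
    decide

theorem five (T : Finset (Fin 5)) : 3 ≤ T.card →
    ∃ j ∈ T, ∀ v : Fin 5, v ∈ T.erase j ∨ ∃ u ∈ T.erase j, (u = v + 1 ∨ v = u + 1) := by
  revert T
  decide

/-- The independent set. -/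
def indPent (k : ℕ) : Finset (Fin 5 ⊕ (Fin k × Bool)) :=
  insert (Sum.inl 0) (insert (Sum.inl 2)
    (Finset.univ.map ⟨fun i : Fin k => Sum.inr (i, true), fun i j h => by simpa using h⟩))

theorem mem_indPent {k : ℕ} {v : Fin 5 ⊕ (Fin k × Bool)} :
    v ∈ indPent k ↔ v = Sum.inl 0 ∨ v = Sum.inl 2 ∨ ∃ i, v = Sum.inr (i, true) := by
  unfold indPent
  rw [Finset.mem_insert, Finset.mem_insert, Finset.mem_map]
  simp only [Finset.mem_univ, true_and, Function.Embedding.coeFn_mk, eq_comm]

theorem card_indPent (k : ℕ) : (indPent k).card = k + 2 := by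
  unfold indPent
  rw [Finset.card_insert_of_notMem, Finset.card_insert_of_notMem, Finset.card_map,
    Finset.card_univ, Fintype.card_fin]
  · simp
  · simp

theorem gam_pent (k : ℕ) : Gam (pent k) = k + 2 := by
  classical
  apply le_antisymm
  · obtain ⟨S0, -, hS0⟩ := exists_min (P := Dom (pent k)) Finset.univ
      (fun v hv => absurd (Finset.mem_univ v) hv)
    obtain ⟨S, hS, hc⟩ := exists_upper hS0
    change upper (Dom (pent k)) ≤ k + 2
    rw [← hc, ← Finset.card_toLeft_add_card_toRight]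
    have hR : S.toRight.card ≤ k := by
      have : S.toRight.card ≤ (Finset.univ : Finset (Fin k)).card := by
        refine Finset.card_le_card_of_injOn Prod.fst (fun _ _ => Finset.mem_univ _) ?_
        rintro ⟨i, s⟩ hs ⟨j, t⟩ ht hij
        have hij' : i = j := hij
        subst hij'
        by_contra hne
        have hst : s ≠ t := fun hh => hne (by rw [hh])
        have hs' : Sum.inr (i, s) ∈ S := Finset.mem_toRight.1 (Finset.mem_coe.1 hs)
        have ht' : Sum.inr (i, t) ∈ S := Finset.mem_toRight.1 (Finset.mem_coe.1 ht)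
        refine hS.2 (S.erase (Sum.inr (i, s))) (Finset.erase_ssubset hs') ?_
        intro v hv
        by_cases hvi : v = Sum.inr (i, s)
        · refine ⟨Sum.inr (i, t), Finset.mem_erase.2 ⟨?_, ht'⟩, ?_⟩
          · simpa using hst.symm
          · rw [hvi]; exact ⟨rfl, hst⟩
        · have hvS : v ∉ S := fun hh => hv (Finset.mem_erase.2 ⟨hvi, hh⟩)
          obtain ⟨u, hu, hadj⟩ := hS.1 v hvS
          refine ⟨u, Finset.mem_erase.2 ⟨?_, hu⟩, hadj⟩
          rintro rfl
          rcases v with v | ⟨j, r⟩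
          · exact hadj
          · have h1 : j = i := hadj.1
            have h2 : r ≠ s := hadj.2
            subst h1
            have : r = t := by
              revert h2 hst
              cases r <;> cases s <;> cases t <;> simp
            exact hvS (by rw [this]; exact ht')
      simpa using this
    have hL : S.toLeft.card ≤ 2 := by
      by_contra hcon
      obtain ⟨j, hj, hall⟩ := five S.toLeft (by omega)
      refine hS.2 (S.erase (Sum.inl j)) (Finset.erase_ssubset (Finset.mem_toLeft.1 hj)) ?_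
      rintro (v | v) hv
      · rcases hall v with hv1 | ⟨u, hu, hvu⟩
        · exfalso
          obtain ⟨q1, q2⟩ := Finset.mem_erase.1 hv1
          refine hv (Finset.mem_erase.2 ⟨?_, Finset.mem_toLeft.1 q2⟩)
          simpa using q1
        · obtain ⟨q1, q2⟩ := Finset.mem_erase.1 hu
          refine ⟨Sum.inl u, Finset.mem_erase.2 ⟨?_, Finset.mem_toLeft.1 q2⟩, hvu⟩
          simpa using q1
      · have hvS : Sum.inr v ∉ S := fun hh => hv (Finset.mem_erase.2 ⟨by simp, hh⟩)
        obtain ⟨u, hu, hadj⟩ := hS.1 _ hvS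
        refine ⟨u, Finset.mem_erase.2 ⟨?_, hu⟩, hadj⟩
        rintro rfl
        exact hadj
    omega
  · rw [← card_indPent]
    apply indep_le
    intro a ha b hb
    rcases mem_indPent.1 ha with rfl | rfl | ⟨i, rfl⟩ <;>
      rcases mem_indPent.1 hb with rfl | rfl | ⟨j, rfl⟩
    · change ¬ ((0 : Fin 5) = 0 + 1 ∨ (0 : Fin 5) = 0 + 1); decide
    · change ¬ ((2 : Fin 5) = 0 + 1 ∨ (0 : Fin 5) = 2 + 1); decide
    · exact fun hh => hh
    · change ¬ ((0 : Fin 5) = 2 + 1 ∨ (2 : Fin 5) = 0 + 1); decide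
    · change ¬ ((2 : Fin 5) = 2 + 1 ∨ (2 : Fin 5) = 2 + 1); decide
    · exact fun hh => hh
    · exact fun hh => hh
    · exact fun hh => hh
    · exact fun hh => hh.2 rfl

/-- The partners. -/
def mPent (k : ℕ) : Fin 5 ⊕ (Fin k × Bool) → Fin 5 ⊕ (Fin k × Bool)
  | .inl _ => .inl 1
  | .inr q => .inr (q.1, false)

theorem conf_pent (k : ℕ) :
    Conf (pent k) (indPent k) (Sum.inl 0) (Sum.inl 4) (mPent k) (fun _ => Sum.inl 3) := by
  have hS : ∀ u, InS (indPent k) (Sum.inl 0) (mPent k) u →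
      u = Sum.inl 0 ∨ u = Sum.inl 1 ∨ u = Sum.inl 2 ∨ ∃ q, u = Sum.inr q := by
    rintro u (hu | ⟨w, hw, -, rfl⟩)
    · rcases mem_indPent.1 hu with rfl | rfl | ⟨i, rfl⟩
      · exact Or.inl rfl
      · exact Or.inr (Or.inr (Or.inl rfl))
      · exact Or.inr (Or.inr (Or.inr ⟨_, rfl⟩))
    · rcases mem_indPent.1 hw with rfl | rfl | ⟨i, rfl⟩
      · exact Or.inr (Or.inl rfl)
      · exact Or.inr (Or.inl rfl)
      · exact Or.inr (Or.inr (Or.inr ⟨_, rfl⟩))
  refine ⟨?_, ?_, ?_, ?_, ?_, ?_, ?_, ?_⟩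
  · rw [card_indPent, gam_pent]
  · exact mem_indPent.2 (Or.inl rfl)
  · intro w hw hwd hh
    rcases mem_indPent.1 hw with rfl | rfl | ⟨i, rfl⟩
    · exact hwd rfl
    · rcases mem_indPent.1 hh with hh | hh | ⟨j, hh⟩ <;> simp [mPent] at hh
    · rcases mem_indPent.1 hh with hh | hh | ⟨j, hh⟩ <;> simp [mPent] at hh
  · intro w hw w' hw' hwd hwd' hmm
    rcases mem_indPent.1 hw with rfl | rfl | ⟨i, rfl⟩
    · exact absurd rfl hwd
    · rcases mem_indPent.1 hw' with rfl | rfl | ⟨j, rfl⟩
      · exact absurd rfl hwd'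
      · rfl
      · simp [mPent] at hmm
    · rcases mem_indPent.1 hw' with rfl | rfl | ⟨j, rfl⟩
      · exact absurd rfl hwd'
      · simp [mPent] at hmm
      · simp only [mPent, Sum.inr.injEq, Prod.mk.injEq, and_true] at hmm
        rw [hmm]
  · intro w hw hwd
    rcases mem_indPent.1 hw with rfl | rfl | ⟨i, rfl⟩
    · exact absurd rfl hwd
    · refine ⟨Or.inr rfl, ?_⟩
      intro u hu hadj
      rcases hS u hu with rfl | rfl | rfl | ⟨q, rfl⟩
      · exact absurd (show ((0 : Fin 5) = 2 + 1 ∨ (2 : Fin 5) = 0 + 1) from hadj) (by decide)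
      · rfl
      · exact absurd (show ((2 : Fin 5) = 2 + 1 ∨ (2 : Fin 5) = 2 + 1) from hadj) (by decide)
      · exact absurd hadj (fun hh => hh)
    · refine ⟨⟨rfl, by simp⟩, ?_⟩
      intro u hu hadj
      rcases hS u hu with rfl | rfl | rfl | ⟨⟨j, s⟩, rfl⟩
      · exact absurd hadj (fun hh => hh)
      · exact absurd hadj (fun hh => hh)
      · exact absurd hadj (fun hh => hh)
      · have h1 : i = j := hadj.1
        have h2 : true ≠ s := hadj.2
        subst h1
        cases s
        · rfl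
        · exact absurd rfl h2
  · refine ⟨Or.inl rfl, ?_⟩
    intro u hu hadj
    rcases hS u hu with rfl | rfl | rfl | ⟨q, rfl⟩
    · rfl
    · exact absurd (show ((1 : Fin 5) = 4 + 1 ∨ (4 : Fin 5) = 1 + 1) from hadj) (by decide)
    · exact absurd (show ((2 : Fin 5) = 4 + 1 ∨ (4 : Fin 5) = 2 + 1) from hadj) (by decide)
    · exact absurd hadj (fun hh => hh)
  · intro w hw hwd
    rcases mem_indPent.1 hw with rfl | rfl | ⟨i, rfl⟩
    · exact absurd rfl hwd
    · right
      refine ⟨Or.inr rfl, ⟨Or.inr rfl, ?_⟩, Or.inl rfl⟩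
      intro u hu hadj
      rcases hS u hu with rfl | rfl | rfl | ⟨q, rfl⟩
      · exact absurd (show ((0 : Fin 5) = 3 + 1 ∨ (3 : Fin 5) = 0 + 1) from hadj) (by decide)
      · exact absurd (show ((1 : Fin 5) = 3 + 1 ∨ (3 : Fin 5) = 1 + 1) from hadj) (by decide)
      · rfl
      · exact absurd hadj (fun hh => hh)
    · left
      refine ⟨⟨rfl, by simp⟩, ?_⟩
      intro u hu hadj
      rcases hS u hu with rfl | rfl | rfl | ⟨⟨j, s⟩, rfl⟩
      · exact absurd hadj (fun hh => hh)
      · exact absurd hadj (fun hh => hh)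
      · exact absurd hadj (fun hh => hh)
      · have h1 : i = j := hadj.1
        have h2 : false ≠ s := hadj.2
        subst h1
        cases s
        · exact absurd rfl h2
        · rfl
  · exact ⟨Sum.inl 2, mem_indPent.2 (Or.inr (Or.inl rfl)), by simp, Or.inr rfl⟩

/-- In a triangle-free graph a matching as in the equality case is perfect. -/
theorem cover_of_triFree {V : Type} [Fintype V] {G : SimpleGraph V} (htf : TriFree G)
    {x y : Fin (Gam G) → V} (h : IsIM G x y) (v : V) : ∃ i, v = x i ∨ v = y i := by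
  by_contra hcon
  push Not at hcon
  obtain ⟨i, h1, h2⟩ := both_ends G h v hcon
  exact htf _ _ _ h1 (h.1 i) h2

theorem gamT_pent (k : ℕ) : GamT (pent k) + 1 = 2 * Gam (pent k) := by
  classical
  rw [near_iff (pent k) (pent_iso_free k)]
  refine ⟨?_, _, _, _, _, _, conf_pent k⟩
  rintro ⟨x, y, h⟩
  have hcov := cover_of_triFree (pent_triFree k) h
  have hsurj : Function.Surjective
      (fun q : Fin (Gam (pent k)) × Bool => if q.2 = true then x q.1 else y q.1) := by
    intro v
    obtain ⟨i, hi | hi⟩ := hcov v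
    · exact ⟨(i, true), by simp [hi]⟩
    · exact ⟨(i, false), by simp [hi]⟩
  have hcard := Fintype.card_le_of_surjective _ hsurj
  rw [Fintype.card_sum, Fintype.card_prod, Fintype.card_prod, Fintype.card_fin, Fintype.card_fin,
    Fintype.card_fin, Fintype.card_bool, gam_pent] at hcard
  omega

/-- Triangle-free graphs with `Γ_t = 2 Γ - 1`. -/
theorem triFree_near_iff {V : Type} [Fintype V] (G : SimpleGraph V) (htf : TriFree G)
    (hG : ∀ v, ∃ u, G.Adj v u) :
    GamT G + 1 = 2 * Gam G ↔ ∃ k, Nonempty (pent k ≃g G) := by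
  constructor
  · intro h
    obtain ⟨-, D, d, z, m, p, hc⟩ := (near_iff G hG).1 h
    obtain ⟨k, -, hk⟩ := trifree_iso htf hc
    exact ⟨k, hk⟩
  · rintro ⟨k, ⟨f⟩⟩
    rw [← gam_iso f, ← gamT_iso f (pent_iso_free k)]
    exact gamT_pent k

/-- The disjoint union of `k` edges. -/
def edges (k : ℕ) : SimpleGraph (Fin k × Bool) where
  Adj p q := p.1 = q.1 ∧ p.2 ≠ q.2
  symm := ⟨fun _ _ h => ⟨h.1.symm, h.2.symm⟩⟩
  loopless := ⟨fun _ h => h.2 rfl⟩

/-- Triangle-free graphs with `Γ_t = 2 Γ`. -/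
theorem triFree_iff {V : Type} [Fintype V] (G : SimpleGraph V) (htf : TriFree G)
    (hG : ∀ v, ∃ u, G.Adj v u) :
    GamT G = 2 * Gam G → Nonempty (edges (Gam G) ≃g G) := by
  classical
  intro h
  obtain ⟨x, y, hxy⟩ := (char G hG).1 h
  have hcov := cover_of_triFree htf hxy
  let f : Fin (Gam G) × Bool → V := fun q => if q.2 = true then x q.1 else y q.1
  have hft : ∀ i, f (i, true) = x i := fun i => if_pos rfl
  have hff : ∀ i, f (i, false) = y i := fun i => if_neg (by simp)
  have hadj : ∀ a b, G.Adj (f a) (f b) ↔ (edges (Gam G)).Adj a b := by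
    rintro ⟨i, s⟩ ⟨j, t⟩
    change G.Adj (f (i, s)) (f (j, t)) ↔ (i = j ∧ s ≠ t)
    by_cases hij : i = j
    · subst hij
      cases s <;> cases t
      · rw [hff]; simp
      · rw [hff, hft]; simp [(hxy.1 i).symm]
      · rw [hff, hft]; simp [hxy.1 i]
      · rw [hft]; simp
    · have h1 := hxy.2 i j hij
      have h2 := hxy.2 j i (Ne.symm hij)
      cases s <;> cases t
      · rw [hff, hff]; simp [hij, h1.2.2]
      · rw [hff, hft]; simp only [hij, false_and, iff_false]; exact fun hh => h2.2.1 hh.symm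
      · rw [hff, hft]; simp [hij, h1.2.1]
      · rw [hft, hft]; simp [hij, h1.1]
  have hfinj : Function.Injective f := by
    rintro ⟨i, s⟩ ⟨j, t⟩ hab
    have h1 : (edges (Gam G)).Adj (i, s) (i, !s) := ⟨rfl, by cases s <;> simp⟩
    rw [← hadj, hab, hadj] at h1
    obtain ⟨rfl, h3⟩ : j = i ∧ t ≠ !s := h1
    have : s = t := by
      revert h3
      cases s <;> cases t <;> simp
    rw [this]
  have hfsurj : Function.Surjective f := by
    intro v
    obtain ⟨i, hi | hi⟩ := hcov v
    · exact ⟨(i, true), by rw [hft, hi]⟩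
    · exact ⟨(i, false), by rw [hff, hi]⟩
  exact ⟨⟨Equiv.ofBijective f ⟨hfinj, hfsurj⟩, fun {a b} => hadj a b⟩⟩

theorem gam_edges (k : ℕ) : Gam (edges k) = k := by
  classical
  apply le_antisymm
  · obtain ⟨S0, -, hS0⟩ := exists_min (P := Dom (edges k)) Finset.univ
      (fun v hv => absurd (Finset.mem_univ v) hv)
    obtain ⟨S, hS, hc⟩ := exists_upper hS0
    change upper (Dom (edges k)) ≤ k
    rw [← hc]
    have : S.card ≤ (Finset.univ : Finset (Fin k)).card := by
      refine Finset.card_le_card_of_injOn Prod.fst (fun _ _ => Finset.mem_univ _) ?_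
      rintro ⟨i, s⟩ hs ⟨j, t⟩ ht hij
      have hij' : i = j := hij
      subst hij'
      by_contra hne
      have hst : s ≠ t := fun hh => hne (by rw [hh])
      have hs' : (i, s) ∈ S := Finset.mem_coe.1 hs
      have ht' : (i, t) ∈ S := Finset.mem_coe.1 ht
      refine hS.2 (S.erase (i, s)) (Finset.erase_ssubset hs') ?_
      intro v hv
      by_cases hvi : v = (i, s)
      · refine ⟨(i, t), Finset.mem_erase.2 ⟨?_, ht'⟩, ?_⟩
        · simpa using hst.symm
        · rw [hvi]; exact ⟨rfl, hst⟩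
      · have hvS : v ∉ S := fun hh => hv (Finset.mem_erase.2 ⟨hvi, hh⟩)
        obtain ⟨u, hu, hadj⟩ := hS.1 v hvS
        refine ⟨u, Finset.mem_erase.2 ⟨?_, hu⟩, hadj⟩
        rintro rfl
        obtain ⟨j, r⟩ := v
        have h1 : j = i := hadj.1
        have h2 : r ≠ s := hadj.2
        subst h1
        have : r = t := by
          revert h2 hst
          cases r <;> cases s <;> cases t <;> simp
        exact hvS (by rw [this]; exact ht')
    simpa using this
  · have h1 := indep_le (edges k) (Finset.univ.map ⟨fun i : Fin k => (i, true),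
      fun i j h => by simpa using h⟩) (by
      intro a ha b hb
      obtain ⟨i, -, rfl⟩ := Finset.mem_map.1 ha
      obtain ⟨j, -, rfl⟩ := Finset.mem_map.1 hb
      exact fun hh => hh.2 rfl)
    rw [Finset.card_map, Finset.card_univ, Fintype.card_fin] at h1
    exact h1

theorem edges_iso_free (k : ℕ) (v : Fin k × Bool) : ∃ u, (edges k).Adj v u :=
  ⟨(v.1, !v.2), rfl, by
    obtain ⟨i, s⟩ := v
    cases s <;> simp⟩

theorem gamT_edges (k : ℕ) : GamT (edges k) = 2 * Gam (edges k) := by
  rw [char (edges k) (edges_iso_free k)]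
  have hk := gam_edges k
  refine ⟨fun i => (Fin.cast hk i, true), fun i => (Fin.cast hk i, false), ?_, ?_⟩
  · intro i
    exact ⟨rfl, by simp⟩
  · intro i j hij
    have hne : Fin.cast hk i ≠ Fin.cast hk j := fun hh => hij (by
      have := congrArg Fin.val hh
      exact Fin.ext (by simpa using this))
    exact ⟨fun hh => hne hh.1, fun hh => hne hh.1, fun hh => hne hh.1⟩

/-- Triangle-free graphs with `Γ_t = 2 Γ`. -/
theorem triFree_eq_iff {V : Type} [Fintype V] (G : SimpleGraph V) (htf : TriFree G)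
    (hG : ∀ v, ∃ u, G.Adj v u) :
    GamT G = 2 * Gam G ↔ ∃ k, Nonempty (edges k ≃g G) := by
  constructor
  · intro h
    exact ⟨_, triFree_iff G htf hG h⟩
  · rintro ⟨k, ⟨f⟩⟩
    rw [← gam_iso f, ← gamT_iso f (edges_iso_free k)]
    exact gamT_edges k

end Pool.Agent.Y414.UT
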